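import Pool.Agent.Helper19.HV.StC

/-!
# Project HV, module E4: the duality argument in degree one
-/

set_option autoImplicit false

open scoped TensorProduct

namespace Pool.Agent.Helper19.HV

noncomputable section

open PL

/-- evaluation of a linear combination of alternating maps -/
private theorem lcA {U N X ι : Type} [AddCommGroup U] [Module ℚ U] [AddCommGroup N] [Module ℚ N]
    (Φ : X → (U [⋀^ι]→ₗ[ℚ] N)) (α : X →₀ ℚ) (v : ι → U) :
    (Finsupp.linearCombination ℚ Φ α) v = Finsupp.linearCombination ℚ (fun x => Φ x v) α := by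
  let e : (U [⋀^ι]→ₗ[ℚ] N) →ₗ[ℚ] N :=
    { toFun := fun A => A v
      map_add' := fun _ _ => rfl
      map_smul' := fun _ _ => rfl }
  exact Finsupp.apply_linearCombination ℚ e Φ α

/-- evaluation of a linear combination of linear maps -/
private theorem lcL {U N X : Type} [AddCommGroup U] [Module ℚ U] [AddCommGroup N] [Module ℚ N]
    (Φ : X → (U →ₗ[ℚ] N)) (α : X →₀ ℚ) (v : U) :
    (Finsupp.linearCombination ℚ Φ α) v = Finsupp.linearCombination ℚ (fun x => Φ x v) α := by
  let e : (U →ₗ[ℚ] N) →ₗ[ℚ] N :=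
    { toFun := fun A => A v
      map_add' := fun _ _ => rfl
      map_smul' := fun _ _ => rfl }
  exact Finsupp.apply_linearCombination ℚ e Φ α

theorem mE4 : sGNR → sBLD → sKLF → sALT → sE4 := by
  intro hGNR hBLD hKLF hALT F _ hX4 d c m hd hc hm w hw
  by_contra hnot
  obtain ⟨f, hfw, hfk⟩ := Submodule.exists_le_ker_of_notMem hnot
  have hf0 : ∀ y, f (c 4 0 y) = 0 := fun y => hfk ⟨y, rfl⟩
  -- the functional on the symbols
  have hK := hKLF (RatFunc F) ℚ 2 0 f
  let e0 : Fin 0 → V (RatFunc F) := fun i => i.elim0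
  let ψ : P1 (RatFunc F) → ℚ := fun x => f (tm 2 0 x (pr (RatFunc F) 0 e0))
  have hψK : Kil 4 ψ := by
    intro α hα
    have h1 := hK α hα
    have h2 := lcA (fun x : P1 (RatFunc F) =>
      (f ∘ₗ tmL 2 0 x).compAlternatingMap (pr (RatFunc F) 0)) α e0
    rw [h1] at h2
    exact h2.symm
  have hψc : ∀ x : P1 F, ψ (cst x) = 0 := by
    intro x
    have h1 := hc.two 2 0 x (fun i => i.elim0)
    have h2 : (fun i : Fin 0 => lg (RatFunc.C ((fun i => i.elim0 : Fin 0 → F) i))) = e0 := by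
      funext i
      exact i.elim0
    rw [h2] at h1
    have h3 := hf0 (tm 2 0 x (pr F 0 fun i => lg ((fun i => i.elim0 : Fin 0 → F) i)))
    rw [h1] at h3
    exact h3
  obtain ⟨Bf, hBK, hBc, hBe⟩ := hX4 ψ hψK hψc
  choose A hA using fun x => (hALT (V (RatFunc F)) ℚ).1 (Bf x)
  have hAK : Kil 3 A := by
    intro α hα
    ext v
    have h1 := hBK α hα
    rw [lcA]
    simp only [hA]
    rw [← lcL, h1]
    rfl
  obtain ⟨g, hg⟩ := hBLD (RatFunc F) ℚ 1 1 A hAK
  have hg' : ∀ x v, g (tm 1 1 x (pr (RatFunc F) 1 v)) = Bf x (v 0) := fun x v => by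
    rw [hg, hA]
  -- `g` is zero on the subcomplex
  have hg1 : g ∘ₗ c 3 1 = 0 := by
    apply gext 1 1
    intro x l
    have h1 : (g ∘ₗ c 3 1) ∘ₗ tmL 1 1 x = 0 := by
      apply hGNR
      intro u
      have h2 := hc.two 1 1 x u
      change g (c 3 1 (tm 1 1 x (pr F 1 fun i => lg (u i)))) = 0
      rw [h2, hg']
      have h3 := hBc x
      change Bf (Option.map RatFunc.C x) = 0 at h3
      rw [h3]
      rfl
    exact LinearMap.congr_fun h1 l
  have hg2 : ∀ a, g ∘ₗ m a 3 0 = 0 := by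
    intro a
    apply gext 1 0
    intro x l
    have h1 : (g ∘ₗ m a 3 0) ∘ₗ tmL 1 0 x = 0 := by
      apply hGNR
      intro u
      have h2 := hm.two a 1 0 x u
      change g (m a 3 0 (tm 1 0 x (pr F 0 fun i => lg (u i)))) = 0
      rw [h2, hg']
      have h3 := hBc x
      change Bf (Option.map RatFunc.C x) = 0 at h3
      rw [h3]
      rfl
    exact LinearMap.congr_fun h1 l
  have hgI : II c m 3 1 ≤ LinearMap.ker g := by
    change LinearMap.range (c 3 1) ⊔ ⨆ a, LinearMap.range (m a 3 0) ≤ LinearMap.ker g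
    refine sup_le ?_ (iSup_le fun a => ?_)
    · rw [LinearMap.range_le_ker_iff]
      exact hg1
    · rw [LinearMap.range_le_ker_iff]
      exact hg2 a
  -- `f = g ∘ d`
  have hfg : f = g ∘ₗ d 3 0 := by
    apply gext 2 0
    intro x l
    have h1 : f ∘ₗ tmL 2 0 x = (g ∘ₗ d 3 0) ∘ₗ tmL 2 0 x := by
      apply wext
      intro v
      have h2 := hd.three 1 0 x (pr (RatFunc F) 0 v)
      change f (tm 2 0 x (pr (RatFunc F) 0 v)) = g (d 3 0 (tm 2 0 x (pr (RatFunc F) 0 v)))
      have h3 : d 3 0 (tm 2 0 x (pr (RatFunc F) 0 v)) =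
          tm 1 1 x (wdg (RatFunc F) 0 (cl x) (pr (RatFunc F) 0 v)) := h2
      rw [h3, wdg_pr, hg']
      have h4 : v = e0 := by
        funext i
        exact i.elim0
      rw [h4]
      exact hBe x
    exact LinearMap.congr_fun h1 l
  have h5 : g (d 3 0 w) = 0 := LinearMap.mem_ker.1 (hgI hw)
  have h6 : f w = g (d 3 0 w) := LinearMap.congr_fun hfg w
  exact hfw (h6.trans h5)

end

end Pool.Agent.Helper19.HV
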